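import Pool.Agent.Helper46.HS.Tau
import Pool.Agent.Helper59.HP.Twist

/-!
# H3 (MP_9056e9_nt): the roof function is cohomologous to `- log |φ'|`
-/

set_option autoImplicit false

namespace Pool.Agent.Helper32.HT

open Finset MeasureTheory ProbabilityTheory Filter Topology
open Pool.Agent.Helper46.HR Pool.Agent.Helper46.HS
open Pool.Agent.Helper59.HP (ex norm_ex ex_add ex_zero continuous_ex)

variable {Ω : Type*} [MeasurableSpace Ω] {E : Type*} [MeasurableSpace E] {μ : Measure Ω} {p q : ℝ} {T : Ω ≃ᵐ Ω} {ξ : Ω → E}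
    {φ φ' : E → ℝ → ℝ} {X : Ω → ℝ} {C r K ε : ℝ}

/-- the logarithm of the derivative of the composition -/
noncomputable def Ld (φ φ' : E → ℝ → ℝ) (π : ℕ → E) (m : ℕ) (z : ℝ) : ℝ :=
  ∑ j ∈ range m, Real.log |φ' (π j) (pcm φ π j z)|

omit [MeasurableSpace E] in
theorem Ld_step (h : Con p q φ φ' C r K ε) (π : ℕ → E) (m : ℕ) {z : ℝ} (hz : z ∈ Set.Icc p q) :
    |(Real.log |φ' (π m) (pcm φ π m z)| - (Real.log (len p q φ π (m + 1)) - Real.log (len p q φ π m)))| ≤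
      K * (C * r ^ m) ^ ε := by
  have hqI : q ∈ Set.Icc p q := ⟨h.hpq.le, le_rfl⟩
  have hpI : p ∈ Set.Icc p q := ⟨le_rfl, h.hpq.le⟩
  have hne := h.pcm_inj π m hqI hpI h.hpq.ne'
  obtain ⟨c, hc, hcI, heq⟩ := h.mvt (π m) (h.pcm_mem π m hqI) (h.pcm_mem π m hpI) hne
  have h1 : len p q φ π (m + 1) = |φ' (π m) c| * len p q φ π m := heq
  rw [h1, Real.log_mul (abs_pos.2 (h.hne _ c hcI)).ne' (h.len_pos π m).ne']
  have h2 : Real.log |φ' (π m) (pcm φ π m z)| - (Real.log |φ' (π m) c| + Real.log (len p q φ π m) -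
      Real.log (len p q φ π m)) = Real.log |φ' (π m) (pcm φ π m z)| - Real.log |φ' (π m) c| := by ring
  rw [h2]
  refine (h.hdist _ _ (h.pcm_mem π m hz) c hcI).trans ?_
  apply mul_le_mul_of_nonneg_left _ h.hK
  apply Real.rpow_le_rpow (abs_nonneg _) _ h.hε.le
  refine le_trans ?_ (h.hcon π m)
  have h3 := Set.mem_uIcc.1 (h.pcm_between π m hz)
  have h4 := Set.mem_uIcc.1 hc
  have h5 := le_abs_self (pcm φ π m q - pcm φ π m p)
  have h6 := neg_abs_le (pcm φ π m q - pcm φ π m p)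
  rw [abs_le]
  rcases h3 with ⟨a1, a2⟩ | ⟨a1, a2⟩ <;> rcases h4 with ⟨b1, b2⟩ | ⟨b1, b2⟩ <;> constructor <;> linarith

/-- the logarithm of the derivative in the chart -/
noncomputable def gm (p q : ℝ) (T : Ω ≃ᵐ Ω) (ξ : Ω → E) (φ φ' : E → ℝ → ℝ) (X : Ω → ℝ) (m : ℕ) (ω : Ω) : ℝ :=
  Ld φ φ' (pst T ξ ω) m (X ω) - Real.log (len p q φ (pst T ξ ω) m)

omit [MeasurableSpace E] in
theorem gm_close (h : Con p q φ φ' C r K ε) (hXI : ∀ ω, X ω ∈ Set.Icc p q) {m k : ℕ} (hmk : m ≤ k) (ω : Ω) :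
    |gm p q T ξ φ φ' X k ω - gm p q T ξ φ φ' X m ω| ≤ dc C r K ε * (r ^ ε) ^ m := by
  have hC := h.hC (ξ ω)
  have hr := h.hr0
  have hrε0 : 0 < r ^ ε := Real.rpow_pos_of_pos hr ε
  have hrε1 : r ^ ε < 1 := Real.rpow_lt_one hr.le h.hr1 h.hε
  have hK := h.hK
  have h1 : |gm p q T ξ φ φ' X k ω - gm p q T ξ φ φ' X m ω| ≤
      K * C ^ ε * (((r ^ ε) ^ m - (r ^ ε) ^ k) / (1 - r ^ ε)) := by
    induction k, hmk using Nat.le_induction with
    | base => simp
    | succ k hk ih =>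
      have h2 := Ld_step h (pst T ξ ω) k (hXI ω)
      have h3 : (C * r ^ k) ^ ε = C ^ ε * (r ^ ε) ^ k := by
        have h7 : (r ^ k) ^ ε = (r ^ ε) ^ k := by
          rw [← Real.rpow_natCast r k, ← Real.rpow_natCast (r ^ ε) k, ← Real.rpow_mul hr.le, ← Real.rpow_mul hr.le, mul_comm]
        rw [Real.mul_rpow hC.le (by positivity), h7]
      rw [h3] at h2
      have h4 : ((r ^ ε) ^ m - (r ^ ε) ^ (k + 1)) / (1 - r ^ ε) = ((r ^ ε) ^ m - (r ^ ε) ^ k) / (1 - r ^ ε) + (r ^ ε) ^ k := by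
        have h6 : (1 : ℝ) - r ^ ε ≠ 0 := by linarith
        rw [eq_comm, div_add' _ _ _ h6, pow_succ]
        congr 1
        ring
      rw [h4, mul_add]
      have h8 : gm p q T ξ φ φ' X (k + 1) ω - gm p q T ξ φ φ' X m ω =
          (Real.log |φ' (pst T ξ ω k) (pcm φ (pst T ξ ω) k (X ω))| - (Real.log (len p q φ (pst T ξ ω) (k + 1)) -
            Real.log (len p q φ (pst T ξ ω) k))) + (gm p q T ξ φ φ' X k ω - gm p q T ξ φ φ' X m ω) := by
        unfold gm Ld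
        rw [sum_range_succ]
        ring
      rw [h8]
      refine (abs_add_le _ _).trans ?_
      rw [add_comm]
      exact add_le_add ih (h2.trans (le_of_eq (by ring)))
  refine h1.trans ?_
  unfold dc
  have h2 : 0 ≤ (r ^ ε) ^ k := by positivity
  have h3 : 0 < 1 - r ^ ε := by linarith
  rw [div_mul_eq_mul_div, mul_div_assoc]
  gcongr
  linarith

theorem gm_T (h : Con p q φ φ' C r K ε) (hX : ∀ ω, X ω = φ (ξ ω) (X (T ω))) (m : ℕ) (ω : Ω) :
    gm p q T ξ φ φ' X (m + 1) (T ω) = gm p q T ξ φ φ' X m ω + Real.log |φ' (ξ ω) (X (T ω))| + tt p q T ξ φ m ω := by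
  have h1 : Ld φ φ' (pst T ξ (T ω)) (m + 1) (X (T ω)) = Real.log |φ' (ξ ω) (X (T ω))| + Ld φ φ' (pst T ξ ω) m (X ω) := by
    unfold Ld
    rw [sum_range_succ', add_comm]
    congr 1
    · rw [pst_zero]
      rfl
    · refine sum_congr rfl fun j _ => ?_
      rw [pst_succ, pcm_T, ← hX]
  have h2 : tt p q T ξ φ m ω = - (Real.log (len p q φ (pst T ξ (T ω)) (m + 1)) - Real.log (len p q φ (pst T ξ ω) m)) := by
    unfold tt rd
    have h3 : len p q φ (pst T ξ (T ω)) (m + 1) = |pcm φ (pst T ξ ω) m (φ (ξ ω) q) - pcm φ (pst T ξ ω) m (φ (ξ ω) p)| := by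
      unfold len
      rw [pcm_T, pcm_T]
    rw [← h3, Real.log_div (h.len_pos _ _).ne' (h.len_pos _ _).ne']
  unfold gm
  rw [h1, h2]
  ring

/-- the coboundary -/
theorem cob (h : Con p q φ φ' C r K ε) (hS : Prc μ p q T ξ φ X)
    (hi : AEMeasurable (fun ω => Real.log |φ' (ξ ω) (X (T ω))|) μ) :
    ∃ g : Ω → ℝ, AEMeasurable g μ ∧ ∀ ω, g (T ω) = g ω + Real.log |φ' (ξ ω) (X (T ω))| + tau p q T ξ φ ω := by
  obtain ⟨hr1, hr2⟩ := rε h
  have hlim : Tendsto (fun m : ℕ => dc C r K ε * (r ^ ε) ^ m) atTop (𝓝 0) := by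
    have := (tendsto_pow_atTop_nhds_zero_of_lt_one hr1.le hr2).const_mul (dc C r K ε)
    rwa [mul_zero] at this
  have hcau : ∀ ω, ∃ a, Tendsto (fun m => gm p q T ξ φ φ' X m ω) atTop (𝓝 a) := by
    intro ω
    apply cauchySeq_tendsto_of_complete
    rw [Metric.cauchySeq_iff']
    intro η hη
    obtain ⟨N, hN⟩ := (hlim.eventually (gt_mem_nhds hη)).exists
    refine ⟨N, fun n hn => ?_⟩
    rw [Real.dist_eq]
    exact (gm_close h hS.hXI hn ω).trans_lt hN
  choose g hg using hcau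
  refine ⟨g, ?_, fun ω => ?_⟩
  · refine aemeasurable_of_tendsto_metrizable_ae (u := atTop) (f := fun m => gm p q T ξ φ φ' X m) (fun m => ?_)
      (Eventually.of_forall fun ω => hg ω)
    unfold gm
    refine AEMeasurable.sub ?_ (Real.measurable_log.comp ((len_measurable hS.hφ p q m).comp hS.mpst)).aemeasurable
    unfold Ld
    refine Finset.aemeasurable_fun_sum _ fun j _ => ?_
    have h1 : (fun ω => Real.log |φ' (pst T ξ ω j) (pcm φ (pst T ξ ω) j (X ω))|) =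
        (fun ω => Real.log |φ' (ξ ω) (X (T ω))|) ∘ (T.symm^[j + 1]) := by
      funext ω
      simp only [Function.comp_apply]
      have h2 : T.symm^[j + 1] ω = T.symm (T.symm^[j] ω) := Function.iterate_succ_apply' _ _ _
      have h3 : T (T.symm^[j + 1] ω) = T.symm^[j] ω := by
        rw [h2, T.apply_symm_apply]
      rw [h3]
      have h4 : pcm φ (pst T ξ ω) j (X ω) = X (T.symm^[j] ω) := by
        have h5 := hS.X_eq j (T.symm^[j] ω)
        have h6 : T^[j] (T.symm^[j] ω) = ω := Function.RightInverse.iterate T.apply_symm_apply j ω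
        rw [h6] at h5
        exact h5.symm
      rw [h4]
      rfl
    rw [h1]
    exact hi.comp_quasiMeasurePreserving
      ((hS.hT.symm T).iterate (j + 1)).quasiMeasurePreserving
  · have h1 : Tendsto (fun m => gm p q T ξ φ φ' X (m + 1) (T ω)) atTop (𝓝 (g (T ω))) :=
      (hg (T ω)).comp (tendsto_add_atTop_nat 1)
    have h2 : Tendsto (fun m => gm p q T ξ φ φ' X m ω + Real.log |φ' (ξ ω) (X (T ω))| + tt p q T ξ φ m ω) atTop
        (𝓝 (g ω + Real.log |φ' (ξ ω) (X (T ω))| + tau p q T ξ φ ω)) :=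
      ((hg ω).add_const _).add (tau_tendsto h ω)
    refine tendsto_nhds_unique h1 (h2.congr fun m => ?_)
    rw [gm_T h hS.hX]

private theorem ex_inj32 {x y : ℝ} (h : ex x = ex y) : ∃ n : ℤ, x = y + n := by
  unfold ex at h
  obtain ⟨n, hn⟩ := Complex.exp_eq_exp_iff_exists_int.1 h
  refine ⟨n, ?_⟩
  have h1 := congrArg Complex.im hn
  simp at h1
  have h2 : 2 * Real.pi * x = 2 * Real.pi * (y + n) := by
    rw [h1]; ring
  exact mul_left_cancel₀ (by positivity) h2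

private theorem ex_arg32 {z : ℂ} (h : ‖z‖ = 1) : ex (Complex.arg z / (2 * Real.pi)) = z := by
  unfold ex
  have h1 : 2 * Real.pi * (Complex.arg z / (2 * Real.pi)) = Complex.arg z := by field_simp
  rw [h1]
  have h2 := Complex.norm_mul_exp_arg_mul_I z
  rw [h, Complex.ofReal_one, one_mul] at h2
  exact h2

/-- an eigenfunction of the suspension flow, in terms of the derivatives -/
theorem eig_real (h : Con p q φ φ' C r K ε) (hS : Prc μ p q T ξ φ X)
    (hi : AEMeasurable (fun ω => Real.log |φ' (ξ ω) (X (T ω))|) μ) (θ : ℝ) (f : Ω → ℂ) (hf : Measurable f)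
    (hf1 : ∀ ω, ‖f ω‖ = 1) (hfT : ∀ᵐ ω ∂μ, f (T ω) = ex (θ * tau p q T ξ φ ω) * f ω) :
    ∃ g : Ω → ℝ, Measurable g ∧ ∀ᵐ ω ∂μ, ∃ n : ℤ, g (T ω) = g ω + θ * Real.log |φ' (ξ ω) (X (T ω))| + n := by
  obtain ⟨g, hgm, hg⟩ := cob h hS hi
  have h1 : ∀ᵐ ω ∂μ, g ω = hgm.mk g ω := hgm.ae_eq_mk
  have h2 : ∀ᵐ ω ∂μ, g (T ω) = hgm.mk g (T ω) := hS.hT.quasiMeasurePreserving.ae h1
  refine ⟨fun ω => θ * hgm.mk g ω - Complex.arg (f ω) / (2 * Real.pi), ?_, ?_⟩
  · exact (hgm.measurable_mk.const_mul θ).sub ((Complex.measurable_arg.comp hf).div_const _)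
  · filter_upwards [h1, h2, hfT] with ω a1 a2 a3
    have h3 : ex (Complex.arg (f (T ω)) / (2 * Real.pi)) =
        ex (θ * tau p q T ξ φ ω + Complex.arg (f ω) / (2 * Real.pi)) := by
      rw [ex_add, ex_arg32 (hf1 _), ex_arg32 (hf1 _), a3]
    obtain ⟨n, hn⟩ := ex_inj32 h3
    refine ⟨-n, ?_⟩
    rw [← a1, ← a2, hg ω, hn]
    push_cast
    ring

end Pool.Agent.Helper32.HT
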