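import Pool.Agent.Helper46.HS.Tau

/-!
# H3 (MP_9056e9_nt): reduction to a process which is defined everywhere
-/

set_option autoImplicit false
set_option linter.unusedSectionVars false

namespace Pool.Agent.Helper32.HT

open Finset MeasureTheory ProbabilityTheory Filter Topology
open Pool.Agent.Helper46.HR Pool.Agent.Helper46.HS

variable {Ω : Type*} [MeasurableSpace Ω] {E : Type*} [MeasurableSpace E] {μ : Measure Ω} {p q : ℝ} {T : Ω ≃ᵐ Ω} {ξ : Ω → E}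
    {φ φ' : E → ℝ → ℝ} {X : Ω → ℝ} {C r K ε : ℝ}

/-- the approximations -/
noncomputable def Fk (p : ℝ) (T : Ω ≃ᵐ Ω) (ξ : Ω → E) (φ : E → ℝ → ℝ) (k : ℕ) (ω : Ω) : ℝ :=
  pcm φ (pst T ξ (T^[k] ω)) k p


theorem Fk_succ (k : ℕ) (ω : Ω) : Fk p T ξ φ (k + 1) ω = φ (ξ ω) (Fk p T ξ φ k (T ω)) := by
  unfold Fk
  have h1 : pcm φ (pst T ξ (T^[k + 1] ω)) (k + 1) p =
      φ (pst T ξ (T^[k + 1] ω) k) (pcm φ (pst T ξ (T^[k + 1] ω)) k p) := rfl
  rw [h1]
  have h2 : pst T ξ (T^[k + 1] ω) k = ξ ω := by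
    unfold pst
    rw [symm_iter]
  rw [h2]
  rfl


theorem pcm_iter (k l : ℕ) (ω : Ω) (z : ℝ) :
    pcm φ (pst T ξ (T^[k + l] ω)) (l + k) z = pcm φ (pst T ξ (T^[k] ω)) k (pcm φ (pst T ξ (T^[k + l] ω)) l z) := by
  rw [pcm_add]
  congr 1
  funext j
  rw [pst_shift T ξ (Nat.le_add_right k l) ω j]
  congr 1
  omega


theorem Fk_add (k l : ℕ) (ω : Ω) :
    Fk p T ξ φ (k + l) ω = pcm φ (pst T ξ (T^[k] ω)) k (Fk p T ξ φ l (T^[k] ω)) := by
  unfold Fk
  have h1 := pcm_iter (φ := φ) (T := T) (ξ := ξ) k l ω p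
  rw [add_comm l k] at h1
  rw [h1, ← Function.iterate_add_apply, add_comm l k]


theorem Fk_mem (h : Con p q φ φ' C r K ε) (k : ℕ) (ω : Ω) : Fk p T ξ φ k ω ∈ Set.Icc p q :=
  h.pcm_mem _ k ⟨le_rfl, h.hpq.le⟩


theorem Fk_close (h : Con p q φ φ' C r K ε) (k l : ℕ) (ω : Ω) :
    |Fk p T ξ φ (k + l) ω - Fk p T ξ φ k ω| ≤ C * r ^ k := by
  rw [Fk_add]
  exact h.pcm_small _ k (Fk_mem h l _) ⟨le_rfl, h.hpq.le⟩

/-- a process which satisfies the equation almost everywhere is almost everywhere equal to a process which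
satisfies it everywhere -/
theorem exists_prc (h : Con p q φ φ' C r K ε) (hT : MeasurePreserving T μ μ) (hξ : Measurable ξ)
    (hφ : Measurable (Function.uncurry φ)) (hXI : ∀ᵐ ω ∂μ, X ω ∈ Set.Icc p q)
    (hX : ∀ᵐ ω ∂μ, X ω = φ (ξ ω) (X (T ω))) :
    ∃ Y : Ω → ℝ, Prc μ p q T ξ φ Y ∧ ∀ᵐ ω ∂μ, Y ω = X ω := by
  have hlim : Tendsto (fun k : ℕ => C * r ^ k) atTop (𝓝 0) := by
    have := (tendsto_pow_atTop_nhds_zero_of_lt_one h.hr0.le h.hr1).const_mul C
    rwa [mul_zero] at this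
  have hcau : ∀ ω, ∃ a, Tendsto (fun k => Fk p T ξ φ k ω) atTop (𝓝 a) := by
    intro ω
    apply cauchySeq_tendsto_of_complete
    rw [Metric.cauchySeq_iff']
    intro η hη
    obtain ⟨N, hN⟩ := (hlim.eventually (gt_mem_nhds hη)).exists
    refine ⟨N, fun n hn => ?_⟩
    obtain ⟨l, rfl⟩ := Nat.exists_eq_add_of_le hn
    rw [Real.dist_eq]
    exact (Fk_close h N l ω).trans_lt hN
  choose Y hY using hcau
  have hYI : ∀ ω, Y ω ∈ Set.Icc p q := fun ω =>
    isClosed_Icc.mem_of_tendsto (hY ω) (Eventually.of_forall fun k => Fk_mem h k ω)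
  have hmp : Measurable (pst T ξ) := by
    rw [measurable_pi_iff]
    intro j
    exact hξ.comp (T.symm.measurable.iterate (j + 1))
  have hYm : Measurable Y := by
    refine measurable_of_tendsto_metrizable (f := fun k => Fk p T ξ φ k) (fun k => ?_) ?_
    · unfold Fk
      exact (pcm_measurable hφ k).comp ((hmp.comp (T.measurable.iterate k)).prodMk measurable_const)
    · rw [tendsto_pi_nhds]
      exact hY
  refine ⟨Y, ⟨hT, hξ, hφ, hYm, hYI, fun ω => ?_⟩, ?_⟩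
  · have h1 : Tendsto (fun k => Fk p T ξ φ (k + 1) ω) atTop (𝓝 (Y ω)) := (hY ω).comp (tendsto_add_atTop_nat 1)
    have h2 : ContinuousWithinAt (φ (ξ ω)) (Set.Icc p q) (Y (T ω)) := (h.hd _ _ (hYI _)).continuousWithinAt
    have h3 : Tendsto (fun k => Fk p T ξ φ k (T ω)) atTop (𝓝[Set.Icc p q] (Y (T ω))) :=
      tendsto_nhdsWithin_iff.2 ⟨hY (T ω), Eventually.of_forall fun k => Fk_mem h k (T ω)⟩
    refine tendsto_nhds_unique h1 ((h2.tendsto.comp h3).congr fun k => ?_)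
    rw [Function.comp_apply, Fk_succ]
  · have a1 : ∀ᵐ ω ∂μ, ∀ k : ℕ, X (T^[k] ω) ∈ Set.Icc p q :=
      ae_all_iff.2 fun k => (hT.iterate k).quasiMeasurePreserving.ae hXI
    have a2 : ∀ᵐ ω ∂μ, ∀ k : ℕ, X (T^[k] ω) = φ (ξ (T^[k] ω)) (X (T (T^[k] ω))) :=
      ae_all_iff.2 fun k => (hT.iterate k).quasiMeasurePreserving.ae hX
    filter_upwards [a1, a2] with ω h1 h2
    have h3 : ∀ k : ℕ, X ω = pcm φ (pst T ξ (T^[k] ω)) k (X (T^[k] ω)) := by
      intro k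
      induction k with
      | zero => rfl
      | succ k ih =>
        rw [Function.iterate_succ_apply', pcm_T, ← h2 k]
        exact ih
    have h4 : Tendsto (fun k => |Fk p T ξ φ k ω - X ω|) atTop (𝓝 0) := by
      refine squeeze_zero (fun k => abs_nonneg _) (fun k => ?_) hlim
      unfold Fk
      rw [h3 k]
      exact h.pcm_small _ k ⟨le_rfl, h.hpq.le⟩ (h1 k)
    have h5 : Tendsto (fun k => |Fk p T ξ φ k ω - X ω|) atTop (𝓝 |Y ω - X ω|) := ((hY ω).sub_const _).abs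
    have h6 := tendsto_nhds_unique h5 h4
    rw [abs_eq_zero, sub_eq_zero] at h6
    exact h6

end Pool.Agent.Helper32.HT
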