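import Pool.Agent.Helper46.HS.Base
import Pool.Agent.Helper32.HP.Joint

/-!
# H3 (MP_9056e9_nt): the case of similarities with one ratio
-/

set_option autoImplicit false

namespace Pool.Agent.Helper32.HT

open Finset MeasureTheory ProbabilityTheory Filter Topology
open Pool.Agent.Helper46.HR Pool.Agent.Helper46.HS
open Pool.Agent.Helper59.RE (e)
open Pool.Agent.Helper32.HP (XX past Sys)

variable {Ω : Type*} [MeasurableSpace Ω] {E : Type*} [MeasurableSpace E] {μ : Measure Ω} {p q b : ℝ} {T : Ω ≃ᵐ Ω} {ξ : Ω → E}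
    {φ : E → ℝ → ℝ} {X : Ω → ℝ}

omit [MeasurableSpace Ω] in
private theorem absX32 (hXI : ∀ ω, X ω ∈ Set.Icc p q) (ω : Ω) : |X ω| ≤ |p| + |q| := by
  have h1 := hXI ω
  have h2 := neg_abs_le p
  have h3 := le_abs_self q
  have h4 := abs_nonneg p
  have h5 := abs_nonneg q
  rw [abs_le]
  constructor <;> linarith [h1.1, h1.2]

private theorem step32 (hS : Prc μ p q T ξ φ X) (hsim : ∀ x, ∀ z ∈ Set.Icc p q, φ x z = φ x p + (z - p) / b) (ω : Ω) :
    X ω = (φ (ξ ω) p - p / b) + X (T ω) / b := by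
  rw [hS.hX ω, hsim (ξ ω) _ (hS.hXI (T ω))]
  ring

private theorem bd32 (hb : 1 < b) (hS : Prc μ p q T ξ φ X)
    (hsim : ∀ x, ∀ z ∈ Set.Icc p q, φ x z = φ x p + (z - p) / b) (ω : Ω) :
    |φ (ξ ω) p - p / b| ≤ 2 * (|p| + |q|) := by
  have h1 : φ (ξ ω) p - p / b = X ω - X (T ω) / b := by
    have := step32 hS hsim ω
    linarith
  have h2 := absX32 hS.hXI ω
  have h3 := absX32 hS.hXI (T ω)
  rw [h1]
  refine (abs_sub _ _).trans ?_
  have h4 : |X (T ω) / b| ≤ |X (T ω)| := by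
    rw [abs_div, abs_of_pos (by linarith : (0 : ℝ) < b)]
    exact div_le_self (abs_nonneg _) hb.le
  linarith

/-- the series -/
theorem sim_XX (hb : 1 < b) (hS : Prc μ p q T ξ φ X)
    (hsim : ∀ x, ∀ z ∈ Set.Icc p q, φ x z = φ x p + (z - p) / b) :
    XX b T (fun ω => φ (ξ ω) p - p / b) = X := by
  funext ω
  have hb0 : 0 < b := by linarith
  have h2 : ∀ n : ℕ, X ω = ∑ k ∈ range n, (φ (ξ (T^[k] ω)) p - p / b) / b ^ k + X (T^[n] ω) / b ^ n := by
    intro n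
    induction n with
    | zero => simp
    | succ n ih =>
      have h3 := step32 hS hsim (T^[n] ω)
      have h4 : T^[n + 1] ω = T (T^[n] ω) := Function.iterate_succ_apply' _ _ _
      rw [sum_range_succ, h4]
      conv_lhs => rw [ih, h3]
      rw [add_assoc]
      congr 1
      rw [pow_succ]
      field_simp
  have hlim : Tendsto (fun n : ℕ => (|p| + |q|) * (1 / b) ^ n) atTop (𝓝 0) := by
    have h5 : 1 / b < 1 := by rw [div_lt_one hb0]; exact hb
    have := (tendsto_pow_atTop_nhds_zero_of_lt_one (by positivity) h5).const_mul (|p| + |q|)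
    rwa [mul_zero] at this
  have h6 : Tendsto (fun n : ℕ => X (T^[n] ω) / b ^ n) atTop (𝓝 0) := by
    refine squeeze_zero_norm (fun n => ?_) hlim
    rw [Real.norm_eq_abs, abs_div, abs_of_pos (pow_pos hb0 n), one_div, inv_pow, ← div_eq_mul_inv]
    exact div_le_div_of_nonneg_right (absX32 hS.hXI _) (pow_pos hb0 n).le
  have h7 : Tendsto (fun n : ℕ => ∑ k ∈ range n, (φ (ξ (T^[k] ω)) p - p / b) / b ^ k) atTop (𝓝 (X ω)) := by
    have h8 : Tendsto (fun n : ℕ => X ω - X (T^[n] ω) / b ^ n) atTop (𝓝 (X ω - 0)) := tendsto_const_nhds.sub h6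
    rw [sub_zero] at h8
    refine h8.congr fun n => ?_
    have := h2 n
    linarith
  have hsum : Summable fun k : ℕ => (φ (ξ (T^[k] ω)) p - p / b) / b ^ k := by
    have h5 : 1 / b < 1 := by rw [div_lt_one hb0]; exact hb
    refine Summable.of_norm_bounded (g := fun k : ℕ => 2 * (|p| + |q|) * (1 / b) ^ k)
      ((summable_geometric_of_lt_one (by positivity) h5).mul_left _) fun k => ?_
    rw [Real.norm_eq_abs, abs_div, abs_of_pos (pow_pos hb0 k), one_div, inv_pow, ← div_eq_mul_inv]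
    exact div_le_div_of_nonneg_right (bd32 hb hS hsim _) (pow_pos hb0 k).le
  exact tendsto_nhds_unique hsum.hasSum.tendsto_sum_nat h7

theorem sim_sys (hb : 1 < b) (hS : Prc μ p q T ξ φ X)
    (hsim : ∀ x, ∀ z ∈ Set.Icc p q, φ x z = φ x p + (z - p) / b) :
    Sys μ b (2 * (|p| + |q|)) T (fun ω => φ (ξ ω) p - p / b) where
  hb := hb
  hT := hS.hT
  hξ := (hS.hφ.comp (hS.hξ.prodMk measurable_const)).sub_const _
  hC := bd32 hb hS hsim

/-- `X` is not a function of the past of the translations -/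
theorem sim_past (hb : 1 < b) (hS : Prc μ p q T ξ φ X)
    (hsim : ∀ x, ∀ z ∈ Set.Icc p q, φ x z = φ x p + (z - p) / b)
    (hX : ∀ f : (ℕ → E) → ℝ, Measurable f → ¬ (X =ᵐ[μ] fun ω => f (pst T ξ ω))) :
    ∀ f : (ℕ → ℝ) → ℝ, Measurable f → ¬ (XX b T (fun ω => φ (ξ ω) p - p / b) =ᵐ[μ]
      fun ω => f (past T (fun ω => φ (ξ ω) p - p / b) ω)) := by
  intro f hf h
  rw [sim_XX hb hS hsim] at h
  refine hX (fun s => f (fun j => φ (s j) p - p / b)) ?_ h
  refine hf.comp (measurable_pi_iff.2 fun j => ?_)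
  have h1 : Measurable fun s : ℕ → E => (s j, p) := (measurable_pi_apply j).prodMk measurable_const
  exact (hS.hφ.comp h1).sub_const _

theorem sim_joint (hb : 1 < b) (hS : Prc μ p q T ξ φ X) [IsProbabilityMeasure μ] (hE : Ergodic T μ)
    (hsim : ∀ x, ∀ z ∈ Set.Icc p q, φ x z = φ x p + (z - p) / b)
    (hX : ∀ f : (ℕ → E) → ℝ, Measurable f → ¬ (X =ᵐ[μ] fun ω => f (pst T ξ ω)))
    (D : ℕ) (a : ℕ → ℕ) (ha : StrictMono a) (haD : ∀ n, a n ≤ D * (n + 1))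
    {d k s : ℕ} (β γ K : Fin d → ℝ) (hinj : Function.Injective β) (hβ : ∀ i, 1 < β i)
    (hirr : ∀ i, Irrational (Real.log (β i) / Real.log b)) (hγ0 : ∀ i, 0 ≤ γ i) (hγ : ∀ i, γ i < β i)
    (ρ : Fin d → Fin k → ℝ) (hρ : ∀ i, LinearIndependent ℚ (ρ i)) (v : Fin d → Fin k → ℕ → ℝ)
    (hv : ∀ i j n, |v i j n - ρ i j * β i ^ n| ≤ K i * γ i ^ n)
    (g : Fin s → ℝ → ℝ) (hg : ∀ l, Differentiable ℝ (g l))
    (hg' : ∀ l, ∀ M : ℝ, ∃ K δ : ℝ, 0 < δ ∧
      ∀ x y : ℝ, |x| ≤ M → |y| ≤ M → |deriv (g l) x - deriv (g l) y| ≤ K * |x - y| ^ δ)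
    (hgz : ∀ l, {x : ℝ | deriv (g l) x = 0}.Countable)
    (hgg : ∀ l m, l ≠ m → {x | g l x = g m x}.Countable) (σ : Fin s → ℝ) (hσ : ∀ l, σ l ≠ 0)
    (c : ℕ → (Fin d × Fin k) ⊕ (Fin s × Fin k) → ℝ) :
    ∀ᵐ ω ∂μ, (∀ l, 1 < g l (X ω)) → ∀ h : (Fin d × Fin k) ⊕ (Fin s × Fin k) → ℤ, h ≠ 0 →
      Tendsto (fun N : ℕ => (∑ n ∈ range N, e (∑ x, h x * (Sum.elim
        (fun y : Fin d × Fin k => X ω * v y.1 y.2 (a n))
        (fun y : Fin s × Fin k => σ y.1 * g y.1 (X ω) ^ (a n + (y.2 : ℕ))) x + c n x))) / N)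
        atTop (𝓝 0) := by
  have h1 := Pool.Agent.Helper32.HP.joint (sim_sys hb hS hsim) hE (sim_past hb hS hsim hX) D a ha haD β γ K hinj hβ
    hirr hγ0 hγ ρ hρ v hv g hg hg' hgz hgg σ hσ c
  rw [sim_XX hb hS hsim] at h1
  exact h1

end Pool.Agent.Helper32.HT
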