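import Mathlib
import Pool.Agent.Helper46.HT.Joint
import Pool.Agent.Helper32.HT.Cob
import Pool.Agent.Helper32.HT.Sim
import Pool.Agent.Helper32.HT.Red
import Pool.Agent.Helper59.WD.Box

/-!
# Koksma's theorem for stationary conformal expansions

Let `T` be an ergodic invertible transformation of a probability space, `ξ` a random element of a
measurable space `E`, and let `φ_x`, `x ∈ E`, be contractions of `[p, q]` whose derivatives have no
zeros and uniformly Hölder continuous logarithms.  Let `X = φ_ξ(X ∘ T)` almost surely, `X ∈ [p, q]`,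
so `X = φ_ξ(φ_(ξ∘T)(φ_(ξ∘T²)(...)))`, and let `log |φ_ξ'(X ∘ T)|` be integrable.  Suppose that `X` is
not almost surely a measurable function of the past `ξ ∘ T^(-1), ξ ∘ T^(-2), ...`.

There is a countable set `Z` of numbers `t` for which an integer multiple `m/t ≠ 0` of `1/t` is an
eigenvalue of the suspension flow: `m/t log |φ_ξ'(X ∘ T)|` is cohomologous to an integer valued
function.  If all `φ_x` are similarities with the same ratio `1/b > 0`, `Z` consists of multiples of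
`log b` by rational numbers.  It does not depend on the following objects.

Let `a 0 < a 1 < ...` be integers of positive lower density, `g_1, ..., g_s` nice, `g_l = g_m` only on
a countable set for `l ≠ m`, and `σ_1, ..., σ_s ≠ 0`.  Let `β_1, ..., β_d > 1` be distinct,
`log β_i ∉ Z`, `v_ij n = ρ_ij β_i^n + O(γ_i^n)`, `γ_i < β_i`, `j < k`, with `ρ_i1, ..., ρ_ik` linearly
independent over the rational numbers.  Almost surely, if all `g_l(X) > 1`, the points with the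
coordinates `X v_ij(a n) + c n i j` and `σ_l g_l(X)^(a n + j) + c n l j`, `j < k`, are equidistributed
in the torus of dimension `(d+s)k`.
-/

namespace Pool.Agent.Helper32.HT.Draft

open Finset MeasureTheory ProbabilityTheory Filter Topology

open scoped Classical in
/-- The sequence `u` of vectors is equidistributed modulo one. -/
def UD {ι : Type} [Fintype ι] (u : ℕ → ι → ℝ) : Prop :=
  ∀ s t : ι → ℝ, (∀ i, 0 ≤ s i ∧ s i < t i ∧ t i ≤ 1) →
    Tendsto (fun N : ℕ => (((range N).filter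
      (fun n => ∀ i, s i ≤ Int.fract (u n i) ∧ Int.fract (u n i) < t i)).card : ℝ) / N) atTop
      (𝓝 (∏ i, (t i - s i)))

/-- `f` is differentiable and its derivative is locally Hölder continuous and has only countably
many zeros. -/
def Nice (f : ℝ → ℝ) : Prop :=
  Differentiable ℝ f ∧
  (∀ M : ℝ, ∃ K δ : ℝ, 0 < δ ∧
    ∀ x y : ℝ, |x| ≤ M → |y| ≤ M → |deriv f x - deriv f y| ≤ K * |x - y| ^ δ) ∧
  {x : ℝ | deriv f x = 0}.Countable

/-- The composition `φ_(π (k - 1)) ∘ ... ∘ φ_(π 0)`. -/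
def comp {E : Type*} (φ : E → ℝ → ℝ) (π : ℕ → E) : ℕ → ℝ → ℝ
  | 0, z => z
  | k + 1, z => φ (π k) (comp φ π k z)

/-- The `φ_x` map `[p, q]` into itself and have the derivatives `φ'_x` without zeros, the functions
`log |φ'_x|` are Hölder continuous, and the image of `[p, q]` under any composition of `k` of the
`φ_x` has at most the length `C r^k`, `r < 1`, all uniformly in `x ∈ E`. -/
structure Contracting {E : Type*} (p q : ℝ) (φ φ' : E → ℝ → ℝ) : Prop where
  lt : p < q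
  maps : ∀ x, ∀ z ∈ Set.Icc p q, φ x z ∈ Set.Icc p q
  deriv : ∀ x, ∀ z ∈ Set.Icc p q, HasDerivWithinAt (φ x) (φ' x z) (Set.Icc p q) z ∧ φ' x z ≠ 0
  holder : ∃ K ε : ℝ, 0 < ε ∧ ∀ x, ∀ z ∈ Set.Icc p q, ∀ w ∈ Set.Icc p q,
    |(Real.log |φ' x z| - Real.log |φ' x w|)| ≤ K * |z - w| ^ ε
  contr : ∃ C r : ℝ, 0 < r ∧ r < 1 ∧
    ∀ (π : ℕ → E) (k : ℕ), |comp φ π k q - comp φ π k p| ≤ C * r ^ k

/-- Weyl's criterion. -/
theorem ud_of_weyl {ι : Type} [Fintype ι] (u : ℕ → ι → ℝ)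
    (hu : ∀ h : ι → ℤ, h ≠ 0 → Tendsto (fun N : ℕ => (∑ n ∈ range N,
      Pool.Agent.Helper59.RE.e (∑ i, h i * u n i)) / N) atTop (𝓝 0)) : UD u := by
  intro s t hst
  exact Pool.Agent.Helper59.WD.weyl u hu s t (fun i => (hst i).1) (fun i => (hst i).2.1.le)
    (fun i => (hst i).2.2)

theorem comp_eq {E : Type*} (φ : E → ℝ → ℝ) (π : ℕ → E) (k : ℕ) (z : ℝ) :
    comp φ π k z = Pool.Agent.Helper46.HS.pcm φ π k z := by
  induction k with
  | zero => rfl
  | succ k ih => exact congrArg (φ (π k)) ih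

theorem con {E : Type*} {p q : ℝ} {φ φ' : E → ℝ → ℝ} (h : Contracting p q φ φ') :
    ∃ C r K ε : ℝ, Pool.Agent.Helper46.HS.Con p q φ φ' C r K ε := by
  obtain ⟨h1, h2, h3, ⟨K, ε, hε, h4⟩, ⟨C, r, hr0, hr1, h5⟩⟩ := h
  refine ⟨C, r, |K|, ε, ⟨h1, h2, fun x z hz => (h3 x z hz).1, fun x z hz => (h3 x z hz).2,
    fun x z hz w hw => (h4 x z hz w hw).trans ?_, fun π k => ?_, abs_nonneg K, hr0, hr1, hε⟩⟩
  · exact mul_le_mul_of_nonneg_right (le_abs_self K) (Real.rpow_nonneg (abs_nonneg _) ε)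
  · rw [← comp_eq, ← comp_eq]
    exact h5 π k

theorem result {Ω : Type*} [MeasurableSpace Ω] (μ : Measure Ω) [IsProbabilityMeasure μ]
    (T : Ω ≃ᵐ Ω) (hT : Ergodic T μ) {E : Type*} [MeasurableSpace E] (ξ : Ω → E) (hξ : Measurable ξ)
    (p q : ℝ) (φ φ' : E → ℝ → ℝ) (hφ : Measurable (Function.uncurry φ))
    (hcon : Contracting p q φ φ') (X : Ω → ℝ) (hXI : ∀ᵐ ω ∂μ, X ω ∈ Set.Icc p q)
    (hX : ∀ᵐ ω ∂μ, X ω = φ (ξ ω) (X (T ω)))
    (hint : Integrable (fun ω => Real.log |φ' (ξ ω) (X (T ω))|) μ)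
    (hpast : ∀ f : (ℕ → E) → ℝ, Measurable f →
      ¬ (∀ᵐ ω ∂μ, X ω = f (fun j : ℕ => ξ (T.symm^[j + 1] ω)))) :
    ∃ Z : Set ℝ, Z.Countable ∧
      (∀ t ∈ Z, ∃ (m : ℤ) (g : Ω → ℝ), m ≠ 0 ∧ Measurable g ∧ ∀ᵐ ω ∂μ, ∃ n : ℤ,
        g (T ω) = g ω + m / t * Real.log |φ' (ξ ω) (X (T ω))| + n) ∧
      (∀ b : ℝ, 1 < b → (∀ x, ∀ z ∈ Set.Icc p q, φ x z = φ x p + (z - p) / b) →
        ∀ t ∈ Z, ∃ u : ℚ, t = u * Real.log b) ∧
      ∀ (a : ℕ → ℕ) (D : ℕ), StrictMono a → (∀ n, a n ≤ D * (n + 1)) →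
      ∀ (d k s : ℕ) (β γ K : Fin d → ℝ) (ρ : Fin d → Fin k → ℝ) (v : Fin d → Fin k → ℕ → ℝ)
        (σ : Fin s → ℝ) (g : Fin s → ℝ → ℝ) (c : ℕ → (Fin d × Fin k) ⊕ (Fin s × Fin k) → ℝ),
      Function.Injective β → (∀ i, 1 < β i) → (∀ i, Real.log (β i) ∉ Z) →
      (∀ i, 0 ≤ γ i ∧ γ i < β i) → (∀ i, LinearIndependent ℚ (ρ i)) →
      (∀ i j n, |v i j n - ρ i j * β i ^ n| ≤ K i * γ i ^ n) → (∀ l, σ l ≠ 0) →
      (∀ l, Nice (g l)) → (∀ l m, l ≠ m → {x | g l x = g m x}.Countable) →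
      ∀ᵐ ω ∂μ, (∀ l, 1 < g l (X ω)) → UD (fun n (x : (Fin d × Fin k) ⊕ (Fin s × Fin k)) =>
        Sum.elim (fun y : Fin d × Fin k => X ω * v y.1 y.2 (a n))
          (fun y : Fin s × Fin k => σ y.1 * g y.1 (X ω) ^ (a n + (y.2 : ℕ))) x + c n x) := by
  obtain ⟨C, r, K₀, ε, hC⟩ := con hcon
  obtain ⟨Y, hS, hY⟩ := Pool.Agent.Helper32.HT.exists_prc hC hT.toMeasurePreserving hξ hφ hXI hX
  have hYT : ∀ᵐ ω ∂μ, Y (T ω) = X (T ω) := hT.toMeasurePreserving.quasiMeasurePreserving.ae hY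
  have hlog : (fun ω => Real.log |φ' (ξ ω) (X (T ω))|) =ᵐ[μ]
      fun ω => Real.log |φ' (ξ ω) (Y (T ω))| := by
    filter_upwards [hYT] with ω h
    rw [h]
  have hint' : Integrable (fun ω => Real.log |φ' (ξ ω) (Y (T ω))|) μ := hint.congr hlog
  have hpast' : ∀ f : (ℕ → E) → ℝ, Measurable f →
      ¬ (Y =ᵐ[μ] fun ω => f (Pool.Agent.Helper46.HS.pst T ξ ω)) := by
    intro f hf h
    refine hpast f hf ?_
    filter_upwards [h, hY] with ω h1 h2
    rw [← h2, h1]
    rfl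
  have hΩ : Nonempty Ω := nonempty_of_isProbabilityMeasure μ
  by_cases hs : ∃ b : ℝ, 1 < b ∧ ∀ x, ∀ z ∈ Set.Icc p q, φ x z = φ x p + (z - p) / b
  · obtain ⟨b, hb, hsim⟩ := hs
    have hb0 : 0 < b := by linarith
    have hlb : 0 < Real.log b := Real.log_pos hb
    refine ⟨Set.range fun u : ℚ => (u : ℝ) * Real.log b, Set.countable_range _, ?_, ?_, ?_⟩
    · rintro t ⟨u, rfl⟩
      have hd : ∀ x, ∀ z ∈ Set.Icc p q, φ' x z = 1 / b := by
        intro x z hz
        have h1 : HasDerivWithinAt (fun z => φ x p + (z - p) / b) (1 / b) (Set.Icc p q) z := by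
          have := (((hasDerivAt_id z).sub_const p).div_const b).const_add (φ x p)
          exact this.hasDerivWithinAt
        have h2 : HasDerivWithinAt (φ x) (1 / b) (Set.Icc p q) z :=
          h1.congr (fun w hw => hsim x w hw) (hsim x z hz)
        exact UniqueDiffWithinAt.eq_deriv _ (uniqueDiffOn_Icc hcon.lt z hz) (hcon.deriv x z hz).1 h2
      have hXT : ∀ᵐ ω ∂μ, X (T ω) ∈ Set.Icc p q :=
        hT.toMeasurePreserving.quasiMeasurePreserving.ae hXI
      rcases eq_or_ne u 0 with rfl | hu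
      · refine ⟨1, fun _ => 0, one_ne_zero, measurable_const, Eventually.of_forall fun ω => ⟨0, ?_⟩⟩
        simp
      · refine ⟨u.num, fun _ => 0, Rat.num_ne_zero.2 hu, measurable_const, ?_⟩
        filter_upwards [hXT] with ω h
        refine ⟨u.den, ?_⟩
        rw [hd _ _ h, abs_of_pos (by positivity), one_div, Real.log_inv]
        have h1 : (u : ℝ) = u.num / u.den := by exact_mod_cast (Rat.num_div_den u).symm
        have h2 : (u.num : ℝ) ≠ 0 := by exact_mod_cast Rat.num_ne_zero.2 hu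
        have h3 : (u.den : ℝ) ≠ 0 := by exact_mod_cast u.den_nz
        rw [h1]
        push_cast
        field_simp
        ring
    · intro b₁ hb₁ hsim₁ t ht
      obtain ⟨ω⟩ := hΩ
      have h1 := hsim (ξ ω) q ⟨hcon.lt.le, le_rfl⟩
      have h2 := hsim₁ (ξ ω) q ⟨hcon.lt.le, le_rfl⟩
      have h3 : (q - p) / b = (q - p) / b₁ := by linarith
      have h4 : 0 < q - p := sub_pos.2 hcon.lt
      have h5 : b₁ = b := by
        rw [div_eq_div_iff hb0.ne' (by linarith)] at h3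
        exact mul_left_cancel₀ h4.ne' h3
      obtain ⟨u, hu⟩ := ht
      exact ⟨u, by rw [h5, ← hu]⟩
    · intro a D ha haD d k s β γ K ρ v σ g c hinj hβ hirr hγ hρ hv hσ hg hgg
      have hirr' : ∀ i, Irrational (Real.log (β i) / Real.log b) := by
        rintro i ⟨u, hu⟩
        refine hirr i ⟨u, ?_⟩
        simp only
        rw [hu]
        field_simp
      have h5 := Pool.Agent.Helper32.HT.sim_joint hb hS hT hsim hpast' D a ha haD β γ K hinj hβ hirr'
        (fun i => (hγ i).1) (fun i => (hγ i).2) ρ hρ v hv g (fun l => (hg l).1) (fun l => (hg l).2.1)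
        (fun l => (hg l).2.2) hgg σ hσ c
      filter_upwards [h5, hY] with ω h6 h7
      rw [h7] at h6
      intro h8
      exact ud_of_weyl _ (h6 h8)
  · obtain ⟨Z, hZ, hZ1, hZ2⟩ := Pool.Agent.Helper46.HT.jointT hC hS hT hint' hpast'
    refine ⟨Z, hZ, ?_, ?_, ?_⟩
    · intro t ht
      obtain ⟨m, hm, f, hf, hf1, hfT⟩ := hZ1 t ht
      obtain ⟨g, hg, hgT⟩ := Pool.Agent.Helper32.HT.eig_real hC hS hint'.aemeasurable _ f hf hf1 hfT
      refine ⟨m, g, hm, hg, ?_⟩
      filter_upwards [hgT, hYT] with ω h1 h2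
      rw [h2] at h1
      exact h1
    · intro b hb hsim
      exact absurd ⟨b, hb, hsim⟩ hs
    · intro a D ha haD d k s β γ K ρ v σ g c hinj hβ hirr hγ hρ hv hσ hg hgg
      have h5 := hZ2 D a ha haD d k s β γ K hinj hβ hirr (fun i => (hγ i).1) (fun i => (hγ i).2)
        ρ hρ v hv g (fun l => (hg l).1) (fun l => (hg l).2.1) (fun l => (hg l).2.2) hgg σ hσ c
      filter_upwards [h5, hY] with ω h6 h7
      rw [h7] at h6
      intro h8
      exact ud_of_weyl _ (h6 h8)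

end Pool.Agent.Helper32.HT.Draft
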